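import Pool.Agent.H26.LP.Stm
import Pool.Graph.R_pool_sql_team_seeded_3997aac3.Q216.TC.Cau
import Pool.Graph.R_seed8.Y839.RO.POM

/-!
# Project LP, module CAZ: vanishing Cauchy transforms
-/

set_option autoImplicit false

namespace Pool.Agent.H22.LP

open MeasureTheory Set Metric Filter Topology
open scoped InnerProductSpace ENNReal NNReal ComplexConjugate ContDiff
open Pool.Agent.Q130.TC (WT cau)
open Pool.Agent.Y271.RO (db ht Bd)
open Pool.Agent.H26.LP

/-- **Module CAZ.** -/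
theorem caz : S_CAZ := by
  intro S _ μ _ φ k hφ hR hk hki h0
  obtain ⟨R', hR'⟩ := hR
  obtain ⟨R, hR0, hR⟩ : ∃ R : ℝ, 0 < R ∧ ∀ s, ‖φ s‖ ≤ R :=
    ⟨|R'| + 1, by positivity, fun s => (hR' s).trans ((le_abs_self _).trans (by linarith))⟩
  have hPOM := Pool.Agent.Y839.RO.main
  let f : ContDiffBump (0 : ℂ) := ⟨R, R + 1, hR0, by linarith⟩
  obtain ⟨Θ, hΘ⟩ : ∃ Θ : ℂ → ℂ, Θ = fun w => conj w * ((f w : ℝ) : ℂ) := ⟨_, rfl⟩
  have hs : ContDiff ℝ 1 Θ := by
    rw [hΘ]
    refine ContDiff.mul Complex.conjCLE.contDiff ?_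
    exact Complex.ofRealCLM.contDiff.comp f.contDiff
  have hz : ∀ z, R + 1 ≤ ‖z‖ → Θ z = 0 := by
    intro z hz
    rw [hΘ]
    simp only
    rw [f.zero_of_le_dist (by rw [dist_zero_right]; exact hz), Complex.ofReal_zero, mul_zero]
  have htsup : tsupport Θ ⊆ closedBall 0 (R + 1) := by
    apply closure_minimal _ isClosed_closedBall
    intro z hz'
    rw [mem_closedBall, dist_zero_right]
    by_contra hcon
    push Not at hcon
    exact hz' (hz z hcon.le)
  have hcpt : HasCompactSupport Θ :=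
    (isCompact_closedBall (0 : ℂ) (R + 1)).of_isClosed_subset (isClosed_tsupport Θ) htsup
  have hone : ∀ s, Θ (φ s) = conj (φ s) := by
    intro s
    rw [hΘ]
    simp only
    rw [f.one_of_mem_closedBall (by rw [mem_closedBall, dist_zero_right]; exact hR s),
      Complex.ofReal_one, mul_one]
  have hcont : Continuous (db Θ) := hPOM.2.2.2.2.1 Θ hs
  have hsupp : ∀ z, z ∉ ball (0 : ℂ) (R + 2) → db Θ z = 0 := by
    intro z hz'
    refine hPOM.2.2.2.2.2.2 Θ z fun hz2 => hz' ?_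
    have h1 := htsup hz2
    rw [mem_closedBall, dist_zero_right] at h1
    rw [mem_ball, dist_zero_right]
    linarith
  obtain ⟨M, hM⟩ := (isCompact_closedBall (0 : ℂ) (R + 2)).exists_bound_of_continuousOn
    (f := db Θ) hcont.continuousOn
  have hM0 : 0 ≤ M := (norm_nonneg _).trans (hM 0 (mem_closedBall_self (by linarith)))
  have hBd : Bd (db Θ) 0 (R + 2) M := by
    refine ⟨hcont.measurable, hM0, fun z => ?_, hsupp⟩
    by_cases h : z ∈ ball (0 : ℂ) (R + 2)
    · exact hM z (ball_subset_closedBall h)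
    · rw [hsupp z h, norm_zero]
      exact hM0
  obtain ⟨M₀, -, hM₀⟩ := Pool.Agent.Q216.TC.cau_main.2 (R + 2) (by linarith)
  have h1 := (hM₀ S μ φ k hφ hki 0 M (db Θ) hBd).2.2
  have h2 : ∫ z, db Θ z * cau μ φ k z = 0 := by
    rw [← integral_zero ℂ ℂ (μ := volume)]
    refine integral_congr_ae ?_
    filter_upwards [h0] with z hz
    rw [hz, mul_zero]
  have h3 : ∀ s, k s * ht (db Θ) (φ s) = -(Real.pi : ℂ) * (k s * conj (φ s)) := by
    intro s
    rw [hPOM.1 Θ hs hcpt (φ s), hone s]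
    ring
  rw [h2] at h1
  simp only [h3] at h1
  rw [integral_const_mul] at h1
  have h4 : (-(Real.pi : ℂ)) ≠ 0 := by
    rw [neg_ne_zero]
    exact_mod_cast Real.pi_ne_zero
  exact (mul_eq_zero.1 h1.symm).resolve_left h4

end Pool.Agent.H22.LP
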