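import Pool.Agent.H26.LP.Stm
import Pool.Agent.H50.SM.Wgt

/-!
# Project LP, module WGX: the weight
-/

set_option autoImplicit false

namespace Pool.Agent.H22.LP

open MeasureTheory Set Metric Filter Topology
open scoped InnerProductSpace ENNReal NNReal ComplexConjugate
open Pool.Agent.Q130.TR
open Pool.Agent.H26.LP
open Pool.Agent.H50.SM.WGT (qv upp low Wf Wf_meas Wf_nonneg Wf_le Wf_mul Wf_ge)

section

variable {E : Type} [NormedAddCommGroup E] [NormedSpace ℂ E] {T : E →L[ℂ] E}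
  {c : ℕ → E → ℂ → ℂ} {x : ℕ → E} {C₀ : ℝ}

/-- linearity for finite sums -/
theorem cs_sum (h : CS T c x C₀) {ι : Type} (F : Finset ι) (b : ι → ℂ) (y : ι → E) :
    ∀ᵐ z : ℂ, ∀ i, c i (∑ k ∈ F, b k • y k) z = ∑ k ∈ F, b k * c i (y k) z := by
  classical
  induction F using Finset.induction_on with
  | empty =>
    filter_upwards [h.smul 0 0] with z hz i
    have h1 := hz i
    rw [zero_smul, zero_mul] at h1
    rw [Finset.sum_empty, Finset.sum_empty, h1]
  | insert a s ha ih =>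
    filter_upwards [ih, h.smul (b a) (y a), h.add (b a • y a) (∑ k ∈ s, b k • y k)] with
      z h1 h2 h3 i
    rw [Finset.sum_insert ha, Finset.sum_insert ha, h3 i, h2 i, h1 i]

theorem aeval_eq (T : E →L[ℂ] E) (p : Polynomial ℂ) (y : E) :
    Polynomial.aeval T p y = ∑ k : Fin (p.natDegree + 1), p.coeff k • (T ^ (k : ℕ)) y := by
  rw [Polynomial.aeval_eq_sum_range, Finset.sum_range]
  simp only [FunLike.coe_sum, Finset.sum_apply, FunLike.coe_smul,
    Pi.smul_apply]

end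

/-- **Module WGX.** -/
theorem wgx (h2 : S_L2B) : S_WGX := by
  intro E _ _ T c x C₀ h y₀
  obtain ⟨y, hy⟩ : ∃ y : ℕ → E, ∀ k, y k = (T ^ k) y₀ := ⟨_, fun _ => rfl⟩
  have hy0 : y 0 = y₀ := by
    rw [hy, pow_zero]
    rfl
  have hysucc : ∀ k, y (k + 1) = T (y k) := by
    intro k
    rw [hy, hy, pow_succ']
    rfl
  obtain ⟨w, hw⟩ : ∃ w : (Σ n : ℕ, Fin n → ℕ) → E, ∀ i, w i =
      ∑ k : Fin i.1, TopologicalSpace.denseSeq ℂ (i.2 k) • y k := ⟨_, fun _ => rfl⟩
  -- the good points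
  have g1 : ∀ᵐ z : ℂ, ∀ k, Sq (fun j => c j (y k) z) := by
    rw [ae_all_iff]
    intro k
    exact h.sq (y k)
  have g2 : ∀ᵐ z : ℂ, ∀ i : (Σ n : ℕ, Fin n → ℕ), ∀ j, c j (w i) z =
      ∑ k : Fin i.1, TopologicalSpace.denseSeq ℂ (i.2 k) * c j (y k) z := by
    rw [ae_all_iff]
    intro i
    rw [hw]
    exact cs_sum h Finset.univ (fun k : Fin i.1 => TopologicalSpace.denseSeq ℂ (i.2 k))
      (fun k : Fin i.1 => y k)
  have g3 : ∀ᵐ z : ℂ, ∀ k, ∀ b : ℕ → ℂ, Sq b → RK (fun i j => c i (x j) z) b →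
      ∑' j, c j (y (k + 1)) z * b j = z * ∑' j, c j (y k) z * b j := by
    rw [ae_all_iff]
    intro k
    rw [hysucc]
    exact h.eig (y k)
  obtain ⟨U, hU⟩ : ∃ U : (Σ n : ℕ, Fin n → ℕ) → ℂ → ℝ,
      ∀ i z, U i z = n2 (fun j => c j (w i) z) := ⟨_, fun _ _ => rfl⟩
  have hUm : ∀ i, Measurable (U i) := by
    intro i
    have h4 : U i = fun z => n2 (fun j => c j (w i) z) := funext (hU i)
    rw [h4]
    exact h.meas (w i)
  have hU0 : ∀ i z, 0 ≤ U i z := by
    intro i z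
    rw [hU]
    exact Real.sqrt_nonneg _
  have hval : ∀ z, (∀ i : (Σ n : ℕ, Fin n → ℕ), ∀ j, c j (w i) z =
      ∑ k : Fin i.1, TopologicalSpace.denseSeq ℂ (i.2 k) * c j (y k) z) → ∀ i, U i z =
      n2 (fun j => ∑ k : Fin i.1, TopologicalSpace.denseSeq ℂ (i.2 k) * c j (y k) z) := by
    intro z k2 i
    rw [hU]
    congr 1
    funext j
    exact k2 i j
  refine ⟨Wf U, Wf_meas hUm, fun z => ⟨Wf_nonneg hU0 z, Wf_le z⟩, ?_, ?_⟩
  · intro p
    have g4 := cs_sum h Finset.univ (fun k : Fin (p.natDegree + 1) => p.coeff k)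
      (fun k : Fin (p.natDegree + 1) => y k)
    filter_upwards [g1, g2, g4] with z k1 k2 k4
    have h4 := upp h2 (fun k j => c j (y k) z) k1 z (Wf U z) (Wf_nonneg hU0 z) (Wf_le z)
      (fun i => by
        have := Wf_mul hU0 i z
        rw [hval z k2 i] at this
        exact this) p
    have h5 : (fun j => c j (Polynomial.aeval T p y₀) z) =
        fun j => ∑ k : Fin (p.natDegree + 1), p.coeff k * c j (y k) z := by
      funext j
      have h6 : Polynomial.aeval T p y₀ = ∑ k : Fin (p.natDegree + 1), p.coeff k • y k := by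
        rw [aeval_eq]
        exact Finset.sum_congr rfl fun k _ => by rw [hy]
      rw [h6]
      exact k4 j
    rw [h5]
    exact h4
  · filter_upwards [g1, g2, g3] with z k1 k2 k3 b hb hb1 hF
    have hk : ∀ k, ∑' j, c j (y k) z * b j = z ^ k * ∑' j, c j y₀ z * b j := by
      intro k
      induction k with
      | zero => rw [hy0, pow_zero, one_mul]
      | succ k ih => rw [k3 k b hb hF, ih, pow_succ]; ring
    refine Wf_ge z _ fun i => ?_
    rw [hval z k2 i]
    exact low h2 (fun k j => c j (y k) z) k1 z _ b hb hb1 hk i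

end Pool.Agent.H22.LP
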